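import Mathlib
import Pool.Agent.Helper67.R6.Fam

/-! # Row BND of `Pool.Helper67.R6` (MP_798d7d_nt, rank six): size of the members of the box -/

set_option autoImplicit false
set_option maxHeartbeats 4000000

namespace Pool.Helper67.R6.B84

open Pool.Helper67.R6

theorem MM_ge : (14400 : ℤ) ≤ MM := by
  have h : (0 : ℤ) < (Nat.factorial QQ : ℤ) := by exact_mod_cast Nat.factorial_pos QQ
  unfold MM
  linarith

theorem mulb (x y A B : ℤ) (hx : |x| ≤ A) (hy : |y| ≤ B) : |x * y| ≤ A * B := by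
  rw [abs_mul]
  exact mul_le_mul hx hy (abs_nonneg _) (le_trans (abs_nonneg _) hx)

theorem rng (M m T : ℤ) (hM : 14400 ≤ M) (h0 : 0 ≤ T) (h1 : T + 1 ≤ m) :
    0 ≤ M * T ∧ M * T + 14400 ≤ M * m := by
  have hM0 : 0 ≤ M := by linarith
  refine ⟨mul_nonneg hM0 h0, ?_⟩
  have h2 : 0 ≤ M * (m - T - 1) := mul_nonneg hM0 (by linarith)
  linarith [h2, mul_sub M (m - T) 1, mul_sub M m T, mul_one M]

theorem core (L X Y a b c d e f : ℤ) (hL : 14400 ≤ L)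
    (hX0 : 0 ≤ X) (hX1 : X ≤ L) (hY0 : -1 ≤ Y) (hY1 : Y ≤ L)
    (ha0 : 1000 * L - 3 ≤ a) (ha1 : a ≤ 1001 * L)
    (hb0 : -1 ≤ b) (hb1 : b ≤ L)
    (hc0 : -(1000 * L) ≤ c) (hc1 : c ≤ -(999 * L))
    (hd0 : -3 ≤ d) (hd1 : d ≤ L)
    (he0 : 1000 * L - 3 ≤ e) (he1 : e ≤ 1001 * L)
    (hf0 : 1000 * L ≤ f) (hf1 : f ≤ 1001 * L) :
    |X * d - a * Y| ≤ 1002 * L ^ 2 ∧ |X * e - b * Y| ≤ 1002 * L ^ 2 ∧
    |X * f - c * Y| ≤ 2001 * L ^ 2 ∧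
    (998999 * L ^ 2 ≤ b * f - c * e ∧ b * f - c * e ≤ 1002001 * L ^ 2) ∧
    (999998 * L ^ 2 ≤ a * f - c * d ∧ a * f - c * d ≤ 1003001 * L ^ 2) ∧
    (999997 * L ^ 2 ≤ a * e - b * d ∧ a * e - b * d ≤ 1002002 * L ^ 2) := by
  have hL0 : 0 ≤ L := by linarith
  have hXa : |X| ≤ L := abs_le.2 ⟨by linarith, hX1⟩
  have hYa : |Y| ≤ L := abs_le.2 ⟨by linarith, hY1⟩
  have haa : |a| ≤ 1001 * L := abs_le.2 ⟨by linarith, ha1⟩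
  have hba : |b| ≤ L := abs_le.2 ⟨by linarith, hb1⟩
  have hca : |c| ≤ 1000 * L := abs_le.2 ⟨by linarith, by linarith⟩
  have hda : |d| ≤ L := abs_le.2 ⟨by linarith, hd1⟩
  have hea : |e| ≤ 1001 * L := abs_le.2 ⟨by linarith, he1⟩
  have hfa : |f| ≤ 1001 * L := abs_le.2 ⟨by linarith, hf1⟩
  have hLL : 14400 * L ≤ L ^ 2 := by nlinarith
  have h1 := abs_le.1 (mulb X d _ _ hXa hda)
  have h2 := abs_le.1 (mulb a Y _ _ haa hYa)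
  have h3 := abs_le.1 (mulb X e _ _ hXa hea)
  have h4 := abs_le.1 (mulb b Y _ _ hba hYa)
  have h5 := abs_le.1 (mulb X f _ _ hXa hfa)
  have h6 := abs_le.1 (mulb c Y _ _ hca hYa)
  have h7 := abs_le.1 (mulb b d _ _ hba hda)
  have k1 : 0 ≤ (b + 1) * f := mul_nonneg (by linarith) (by linarith)
  have k2 : 0 ≤ (-c - 999 * L) * e := mul_nonneg (by linarith) (by linarith)
  have k3 : 0 ≤ L * (e - (1000 * L - 3)) := mul_nonneg hL0 (by linarith)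
  have k4 : 0 ≤ (L - b) * f := mul_nonneg (by linarith) (by linarith)
  have k5 : 0 ≤ L * (1001 * L - f) := mul_nonneg hL0 (by linarith)
  have k6 : 0 ≤ (1000 * L + c) * e := mul_nonneg (by linarith) (by linarith)
  have k7 : 0 ≤ L * (1001 * L - e) := mul_nonneg hL0 (by linarith)
  have k8 : 0 ≤ (a - (1000 * L - 3)) * f := mul_nonneg (by linarith) (by linarith)
  have k9 : 0 ≤ (1000 * L - 3) * (f - 1000 * L) := mul_nonneg (by linarith) (by linarith)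
  have k10 : 0 ≤ (-c) * (d + 3) := mul_nonneg (by linarith) (by linarith)
  have k11 : 0 ≤ (1001 * L - a) * f := mul_nonneg (by linarith) (by linarith)
  have k12 : 0 ≤ (-c) * (L - d) := mul_nonneg (by linarith) (by linarith)
  have k13 : 0 ≤ (1000 * L + c) * L := mul_nonneg (by linarith) hL0
  have k14 : 0 ≤ (a - (1000 * L - 3)) * e := mul_nonneg (by linarith) (by linarith)
  have k15 : 0 ≤ (1000 * L - 3) * (e - (1000 * L - 3)) := mul_nonneg (by linarith) (by linarith)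
  have k16 : 0 ≤ (1001 * L - a) * e := mul_nonneg (by linarith) (by linarith)
  refine ⟨abs_le.2 ⟨?_, ?_⟩, abs_le.2 ⟨?_, ?_⟩, abs_le.2 ⟨?_, ?_⟩, ⟨?_, ?_⟩, ⟨?_, ?_⟩, ⟨?_, ?_⟩⟩
  · nlinarith [h1.1, h2.2]
  · nlinarith [h1.2, h2.1]
  · nlinarith [h3.1, h4.2]
  · nlinarith [h3.2, h4.1]
  · nlinarith [h5.1, h6.2]
  · nlinarith [h5.2, h6.1]
  · nlinarith [k1, k2, k3]
  · nlinarith [k4, k5, k6, k7]
  · nlinarith [k8, k9, k10]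
  · nlinarith [k11, k5, k12, k13]
  · nlinarith [k14, k15, h7.2]
  · nlinarith [k16, k7, h7.1]

/-- the six square roots, from the `u`, `v` -/
theorem roots (Q u0 u1 u2 v0 v1 v2 : ℤ) (hQ : 0 < Q) (h0 : |u0| ≤ 1002 * Q)
    (h2 : |u2| ≤ 8004 * Q)
    (a0 : 3995996 * Q ≤ v0) (b0 : v0 ≤ 4008004 * Q)
    (a1 : 4999990 * Q ≤ v1)
    (a2 : 4999985 * Q ≤ v2) (b2 : v2 ≤ 5010010 * Q) :
    5 * (u0 ^ 2 + v0 ^ 2) - 8 * (u1 ^ 2 + v1 ^ 2) + 3 * (u2 ^ 2 + v2 ^ 2) ≤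
      -(1000000 * Q ^ 2) := by
  have s0 : u0 ^ 2 ≤ (1002 * Q) ^ 2 := by
    rw [← sq_abs u0]; exact pow_le_pow_left₀ (abs_nonneg _) h0 2
  have s1 : v0 ^ 2 ≤ (4008004 * Q) ^ 2 := pow_le_pow_left₀ (by linarith) b0 2
  have s2 : (4999990 * Q) ^ 2 ≤ v1 ^ 2 := pow_le_pow_left₀ (by linarith) a1 2
  have s3 : u2 ^ 2 ≤ (8004 * Q) ^ 2 := by
    rw [← sq_abs u2]; exact pow_le_pow_left₀ (abs_nonneg _) h2 2
  have s4 : v2 ^ 2 ≤ (5010010 * Q) ^ 2 := pow_le_pow_left₀ (by linarith) b2 2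
  have s5 : 0 ≤ u1 ^ 2 := sq_nonneg _
  have s6 : 0 ≤ Q ^ 2 := sq_nonneg _
  rw [mul_pow] at s0 s1 s2 s3 s4
  norm_num at s0 s1 s2 s3 s4
  linarith

theorem xi_tab : ∀ i j : Fin 6, |2 * xi i ^ 2 * xi j ^ 2| ≤ 162 ∧
    |xi i * xi j * (xi i + xi j)| ≤ 54 ∧ |xi i ^ 2 + 4 * xi i * xi j + xi j ^ 2| ≤ 54 ∧
    |xi i + xi j| ≤ 6 ∧ (i ≠ j → 1 ≤ (xi i - xi j) ^ 2) := by decide

theorem xnb (w : Par) (P S : ℤ) (h1 : |ca w| ≤ P) (h2 : |cb w| ≤ P) (h3 : |cc w| ≤ P)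
    (h4 : |cd w| ≤ P) (h5 : |ce w| ≤ P) (hY : ∀ i, |YY w i| ≤ S) (i j : Fin 6) (s : ℤ)
    (hs : s = 1 ∨ s = -1) : |xn w i j s| ≤ 278 * P + 2 * S ^ 2 := by
  obtain ⟨t1, t2, t3, t4, -⟩ := xi_tab i j
  have e : xn w i j s = ca w * (2 * xi i ^ 2 * xi j ^ 2) + cb w * (xi i * xi j * (xi i + xi j)) +
      cc w * (xi i ^ 2 + 4 * xi i * xi j + xi j ^ 2) + cd w * (xi i + xi j) + 2 * ce w -
      2 * (s * (YY w i * YY w j)) := by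
    unfold xn; ring
  have k1 := abs_le.1 (mulb _ _ _ _ h1 t1)
  have k2 := abs_le.1 (mulb _ _ _ _ h2 t2)
  have k3 := abs_le.1 (mulb _ _ _ _ h3 t3)
  have k4 := abs_le.1 (mulb _ _ _ _ h4 t4)
  have k5 := abs_le.1 h5
  have hs1 : |s| ≤ 1 := by rcases hs with rfl | rfl <;> norm_num
  have k6 := abs_le.1 (mulb _ _ _ _ hs1 (mulb _ _ _ _ (hY i) (hY j)))
  rw [e]
  refine abs_le.2 ⟨?_, ?_⟩
  · nlinarith [k1.1, k2.1, k3.1, k4.1, k5.1, k6.2]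
  · nlinarith [k1.2, k2.2, k3.2, k4.2, k5.2, k6.1]

theorem sqb (x S : ℤ) (h : |x| ≤ S) : 0 ≤ x ^ 2 ∧ x ^ 2 ≤ S ^ 2 := by
  refine ⟨sq_nonneg _, ?_⟩
  rw [← sq_abs x]
  exact pow_le_pow_left₀ (abs_nonneg _) h 2

/-- the coefficients -/
theorem coefs (S : ℤ) (u v : Fin 3 → ℤ) (a b c d e : ℤ)
    (hu0 : |u 0| ≤ S) (hu1 : |u 1| ≤ S) (hu2 : |u 2| ≤ S)
    (hv0 : |v 0| ≤ S) (hv1 : |v 1| ≤ S) (hv2 : |v 2| ≤ S)
    (ha : 480 * a = qa u v) (hb : 12 * b = qb u v) (hc : 288 * c = qc u v)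
    (hd : 12 * d = qd u v) (he : 40 * e = qe u v) :
    |a| ≤ 64 * S ^ 2 ∧ |b| ≤ 64 * S ^ 2 ∧ |c| ≤ 64 * S ^ 2 ∧ |d| ≤ 64 * S ^ 2 ∧
      |e| ≤ 64 * S ^ 2 := by
  have p0 := sqb _ _ hu0
  have p1 := sqb _ _ hu1
  have p2 := sqb _ _ hu2
  have q0 := sqb _ _ hv0
  have q1 := sqb _ _ hv1
  have q2 := sqb _ _ hv2
  have r0 := abs_le.1 (mulb _ _ _ _ hu0 hv0)
  have r1 := abs_le.1 (mulb _ _ _ _ hu1 hv1)
  have hS2 : 0 ≤ S ^ 2 := sq_nonneg S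
  have e2 : S * S = S ^ 2 := by ring
  rw [e2] at r0 r1
  unfold qa at ha
  unfold qb at hb
  unfold qc at hc
  unfold qd at hd
  unfold qe at he
  refine ⟨abs_le.2 ⟨?_, ?_⟩, abs_le.2 ⟨?_, ?_⟩, abs_le.2 ⟨?_, ?_⟩, abs_le.2 ⟨?_, ?_⟩,
    abs_le.2 ⟨?_, ?_⟩⟩ <;> linarith [p0.1, p0.2, p1.1, p1.2, p2.1, p2.2, q0.1, q0.2, q1.1, q1.2,
      q2.1, q2.2, r0.1, r0.2, r1.1, r1.2]

theorem Ab (w : Par) (P : ℤ) (h1 : |ca w| ≤ P) (h2 : |cb w| ≤ P) (h3 : |cc w| ≤ P)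
    (h4 : |cd w| ≤ P) (h5 : |ce w| ≤ P) :
    |aA w| ≤ 8 * P ^ 2 ∧ |aB w| ≤ 13 * P ^ 3 := by
  have k1 := abs_le.1 (mulb _ _ _ _ h1 h5)
  have k2 := abs_le.1 (mulb _ _ _ _ h2 h4)
  have k3 := abs_le.1 (mulb _ _ _ _ h3 h3)
  have m1 := abs_le.1 (mulb _ _ _ _ h1 (mulb _ _ _ _ h4 h4))
  have m2 := abs_le.1 (mulb _ _ _ _ h5 (mulb _ _ _ _ h2 h2))
  have m3 := abs_le.1 (mulb _ _ _ _ h2 (mulb _ _ _ _ h4 h3))
  have m4 := abs_le.1 (mulb _ _ _ _ h1 (mulb _ _ _ _ h3 h5))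
  have m5 := abs_le.1 (mulb _ _ _ _ h3 (mulb _ _ _ _ h3 h3))
  have eP : P * P = P ^ 2 := by ring
  have eP3 : P * (P * P) = P ^ 3 := by ring
  rw [eP] at k1 k2 k3
  rw [eP3] at m1 m2 m3 m4 m5
  have eA : aA w = -(4 * (ca w * ce w) - cb w * cd w + 3 * (cc w * cc w)) := by
    unfold aA; ring
  have eB : aB w = ca w * (cd w * cd w) + ce w * (cb w * cb w) - cb w * (cd w * cc w) -
      8 * (ca w * (cc w * ce w)) + 2 * (cc w * (cc w * cc w)) := by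
    unfold aB; ring
  rw [eA, eB]
  refine ⟨abs_le.2 ⟨?_, ?_⟩, abs_le.2 ⟨?_, ?_⟩⟩ <;>
    linarith [k1.1, k1.2, k2.1, k2.2, k3.1, k3.2, m1.1, m1.2, m2.1, m2.2, m3.1, m3.2, m4.1, m4.2,
      m5.1, m5.2]

theorem cong_ww (m : ℕ) (T : (ℕ × ℕ) × (Fin 6 → ℕ)) : Cong (ww m T) := by
  refine ⟨⟨(T.1.1 : ℤ), ?_⟩, ⟨(T.1.2 : ℤ), ?_⟩, fun i =>
    ⟨1000 * sh i * (m : ℤ) + (T.2 i : ℤ), ?_⟩⟩
  · show (1 + MM * (T.1.1 : ℤ)) - 1 = _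
    ring
  · show (-1 + MM * (T.1.2 : ℤ)) + 1 = _
    ring
  · show (zb i + MM * (1000 * sh i * (m : ℤ) + (T.2 i : ℤ))) - zb i = _
    ring

/-- all bounds in terms of `Q = (MM m)²` -/
theorem uv (m : ℕ) (hm : 1 ≤ m) (T : (ℕ × ℕ) × (Fin 6 → ℕ)) (hT : T ∈ Box m) (Q : ℤ)
    (hQ : Q = (MM * (m : ℤ)) ^ 2) :
    0 < Q ∧ (m : ℤ) ^ 2 ≤ Q ∧
    |U (ww m T) 0| ≤ 1002 * Q ∧ |U (ww m T) 1| ≤ 1002 * Q ∧ |U (ww m T) 2| ≤ 8004 * Q ∧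
    (3995996 * Q ≤ V (ww m T).2 0 ∧ V (ww m T).2 0 ≤ 4008004 * Q) ∧
    (4999990 * Q ≤ V (ww m T).2 1 ∧ V (ww m T).2 1 ≤ 5015005 * Q) ∧
    (4999985 * Q ≤ V (ww m T).2 2 ∧ V (ww m T).2 2 ≤ 5010010 * Q) := by
  have hM := MM_ge
  have hm1 : (1 : ℤ) ≤ (m : ℤ) := by exact_mod_cast hm
  unfold Box at hT
  rw [Finset.mem_product, Finset.mem_product, Fintype.mem_piFinset] at hT
  obtain ⟨⟨hT1, hT2⟩, hT3⟩ := hT
  have g1 : ((T.1.1 : ℕ) : ℤ) + 1 ≤ (m : ℤ) := by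
    have := Finset.mem_range.1 hT1
    exact_mod_cast this
  have g2 : ((T.1.2 : ℕ) : ℤ) + 1 ≤ (m : ℤ) := by
    have := Finset.mem_range.1 hT2
    exact_mod_cast this
  have g3 : ∀ i, ((T.2 i : ℕ) : ℤ) + 1 ≤ (m : ℤ) := by
    intro i
    have := Finset.mem_range.1 (hT3 i)
    exact_mod_cast this
  have r1 := rng MM m T.1.1 hM (Int.natCast_nonneg _) g1
  have r2 := rng MM m T.1.2 hM (Int.natCast_nonneg _) g2
  have r3 := fun i => rng MM m (T.2 i) hM (Int.natCast_nonneg _) (g3 i)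
  have hL : 14400 ≤ MM * (m : ℤ) := by nlinarith
  have zz : ∀ i, (ww m T).2 i = zb i + 1000 * sh i * (MM * (m : ℤ)) + MM * (T.2 i : ℤ) := by
    intro i
    show zb i + MM * (1000 * sh i * (m : ℤ) + (T.2 i : ℤ)) = _
    ring
  have z0 : (ww m T).2 0 = -3 + 1000 * (MM * (m : ℤ)) + MM * (T.2 0 : ℤ) := by
    rw [zz 0]; show (-3 : ℤ) + 1000 * 1 * (MM * (m : ℤ)) + MM * (T.2 0 : ℤ) = _; ring
  have z1 : (ww m T).2 1 = -1 + MM * (T.2 1 : ℤ) := by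
    rw [zz 1]; show (-1 : ℤ) + 1000 * 0 * (MM * (m : ℤ)) + MM * (T.2 1 : ℤ) = _; ring
  have z2 : (ww m T).2 2 = 3 - 1000 * (MM * (m : ℤ)) + MM * (T.2 2 : ℤ) := by
    rw [zz 2]; show (3 : ℤ) + 1000 * (-1) * (MM * (m : ℤ)) + MM * (T.2 2 : ℤ) = _; ring
  have z3 : (ww m T).2 3 = -3 + MM * (T.2 3 : ℤ) := by
    rw [zz 3]; show (-3 : ℤ) + 1000 * 0 * (MM * (m : ℤ)) + MM * (T.2 3 : ℤ) = _; ring
  have z4 : (ww m T).2 4 = -3 + 1000 * (MM * (m : ℤ)) + MM * (T.2 4 : ℤ) := by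
    rw [zz 4]; show (-3 : ℤ) + 1000 * 1 * (MM * (m : ℤ)) + MM * (T.2 4 : ℤ) = _; ring
  have z5 : (ww m T).2 5 = 1 + 1000 * (MM * (m : ℤ)) + MM * (T.2 5 : ℤ) := by
    rw [zz 5]; show (1 : ℤ) + 1000 * 1 * (MM * (m : ℤ)) + MM * (T.2 5 : ℤ) = _; ring
  have hX : (ww m T).1.1 = 1 + MM * (T.1.1 : ℤ) := rfl
  have hY : (ww m T).1.2 = -1 + MM * (T.1.2 : ℤ) := rfl
  have key := core (MM * (m : ℤ)) (ww m T).1.1 (ww m T).1.2 ((ww m T).2 0) ((ww m T).2 1)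
    ((ww m T).2 2) ((ww m T).2 3) ((ww m T).2 4) ((ww m T).2 5) hL
    (by rw [hX]; linarith [r1.1]) (by rw [hX]; linarith [r1.2])
    (by rw [hY]; linarith [r2.1]) (by rw [hY]; linarith [r2.2])
    (by rw [z0]; linarith [(r3 0).1]) (by rw [z0]; linarith [(r3 0).2])
    (by rw [z1]; linarith [(r3 1).1]) (by rw [z1]; linarith [(r3 1).2])
    (by rw [z2]; linarith [(r3 2).1]) (by rw [z2]; linarith [(r3 2).2])
    (by rw [z3]; linarith [(r3 3).1]) (by rw [z3]; linarith [(r3 3).2])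
    (by rw [z4]; linarith [(r3 4).1]) (by rw [z4]; linarith [(r3 4).2])
    (by rw [z5]; linarith [(r3 5).1]) (by rw [z5]; linarith [(r3 5).2])
  rw [← hQ] at key
  obtain ⟨c1, c2, c3, c4, c5, c6⟩ := key
  have hQ0 : 0 < Q := by rw [hQ]; exact pow_pos (by linarith) 2
  have u2 : U (ww m T) 2 = 4 * ((ww m T).1.1 * (ww m T).2 5 - (ww m T).2 2 * (ww m T).1.2) := rfl
  have v0 : V (ww m T).2 0 =
    4 * ((ww m T).2 1 * (ww m T).2 5 - (ww m T).2 2 * (ww m T).2 4) := rfl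
  have v1 : V (ww m T).2 1 =
    5 * ((ww m T).2 0 * (ww m T).2 5 - (ww m T).2 2 * (ww m T).2 3) := rfl
  have v2 : V (ww m T).2 2 =
    5 * ((ww m T).2 0 * (ww m T).2 4 - (ww m T).2 1 * (ww m T).2 3) := rfl
  refine ⟨hQ0, ?_, c1, c2, ?_, ⟨?_, ?_⟩, ⟨?_, ?_⟩, ⟨?_, ?_⟩⟩
  · rw [hQ]
    exact pow_le_pow_left₀ (by linarith) (by nlinarith) 2
  · rw [u2, abs_mul, show |(4 : ℤ)| = 4 from rfl]; linarith
  · rw [v0]; linarith [c4.1]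
  · rw [v0]; linarith [c4.2]
  · rw [v1]; linarith [c5.1]
  · rw [v1]; linarith [c5.2]
  · rw [v2]; linarith [c6.1]
  · rw [v2]; linarith [c6.2]

end Pool.Helper67.R6.B84

namespace Pool.Helper67.R6

open Pool.Helper67.R6.B84

theorem st_BND (hR : ST_REL) (hD : ST_DIV) : ST_BND := by
  obtain ⟨Kn, hKn⟩ : ∃ Kn : ℕ, (Kn : ℤ) = 6000000 * MM ^ 2 :=
    ⟨(6000000 * MM ^ 2).toNat, Int.toNat_of_nonneg (by positivity)⟩
  have hM := MM_ge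
  have hK1 : (1 : ℤ) ≤ (Kn : ℤ) := by rw [hKn]; nlinarith
  have hK1n : 1 ≤ Kn := by exact_mod_cast hK1
  refine ⟨4000000 * Kn ^ 6, ?_, ?_⟩
  · have := Nat.one_le_pow 6 Kn hK1n
    omega
  intro m hm T hT
  have hcast : ((4000000 * Kn ^ 6 : ℕ) : ℤ) = 4000000 * (Kn : ℤ) ^ 6 := by push_cast; ring
  rw [hcast]
  have hm1 : (1 : ℤ) ≤ (m : ℤ) := by exact_mod_cast hm
  obtain ⟨hQ0, hmQ, u0, u1, u2, ⟨v0a, v0b⟩, ⟨v1a, v1b⟩, ⟨v2a, v2b⟩⟩ :=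
    uv m hm T hT ((MM * (m : ℤ)) ^ 2) rfl
  set Q : ℤ := (MM * (m : ℤ)) ^ 2 with hQ
  have hS : (Kn : ℤ) * (m : ℤ) ^ 2 = 6000000 * Q := by rw [hKn, hQ]; ring
  have hcong := cong_ww m T
  obtain ⟨⟨y0, y1, y2, y3, y4, y5⟩, ⟨ea, eb, ec, ed, ee⟩, -, -, -⟩ := hR _ hcong
  have hYY : ∀ i, 0 < YY (ww m T) i ∧ YY (ww m T) i ≤ (Kn : ℤ) * (m : ℤ) ^ 2 := by
    rw [hS]
    have a0 := abs_le.1 u0
    have a1 := abs_le.1 u1
    have a2 := abs_le.1 u2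
    intro i
    fin_cases i
    · show 0 < YY (ww m T) 0 ∧ YY (ww m T) 0 ≤ _
      constructor <;> linarith [a0.1, a0.2]
    · show 0 < YY (ww m T) 1 ∧ YY (ww m T) 1 ≤ _
      constructor <;> linarith [a1.1, a1.2]
    · show 0 < YY (ww m T) 2 ∧ YY (ww m T) 2 ≤ _
      constructor <;> linarith [a2.1, a2.2]
    · show 0 < YY (ww m T) 3 ∧ YY (ww m T) 3 ≤ _
      constructor <;> linarith [a0.1, a0.2]
    · show 0 < YY (ww m T) 4 ∧ YY (ww m T) 4 ≤ _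
      constructor <;> linarith [a1.1, a1.2]
    · show 0 < YY (ww m T) 5 ∧ YY (ww m T) 5 ≤ _
      constructor <;> linarith [a2.1, a2.2]
  have hS6 : 6000000 * Q = (Kn : ℤ) * (m : ℤ) ^ 2 := hS.symm
  obtain ⟨S, hSdef⟩ : ∃ S : ℤ, S = (Kn : ℤ) * (m : ℤ) ^ 2 := ⟨_, rfl⟩
  have hSQ : S = 6000000 * Q := by rw [hSdef, hS]
  obtain ⟨ba, bb, bc, bd, be⟩ := coefs S (U (ww m T)) (V (ww m T).2) (ca (ww m T)) (cb (ww m T))
    (cc (ww m T)) (cd (ww m T)) (ce (ww m T))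
    (by rw [hSQ]; linarith) (by rw [hSQ]; linarith) (by rw [hSQ]; linarith)
    (by rw [hSQ]; exact abs_le.2 ⟨by linarith, by linarith⟩)
    (by rw [hSQ]; exact abs_le.2 ⟨by linarith, by linarith⟩)
    (by rw [hSQ]; exact abs_le.2 ⟨by linarith, by linarith⟩) ea eb ec ed ee
  obtain ⟨bA, bB⟩ := Ab (ww m T) (64 * S ^ 2) ba bb bc bd be
  have hYb : ∀ i, |YY (ww m T) i| ≤ S := by
    intro i
    rw [abs_of_pos (hYY i).1, hSdef]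
    exact (hYY i).2
  have K2 : (Kn : ℤ) ^ 2 ≤ (Kn : ℤ) ^ 6 := pow_le_pow_right₀ hK1 (by norm_num)
  have K4 : (Kn : ℤ) ^ 4 ≤ (Kn : ℤ) ^ 6 := pow_le_pow_right₀ hK1 (by norm_num)
  have K1 : (Kn : ℤ) ≤ (Kn : ℤ) ^ 6 := by
    have := pow_le_pow_right₀ hK1 (show 1 ≤ 6 by norm_num)
    rwa [pow_one] at this
  have K0 : 0 ≤ (Kn : ℤ) := by linarith
  have m2 : 0 ≤ (m : ℤ) ^ 2 := by positivity
  have m4 : 0 ≤ (m : ℤ) ^ 4 := by positivity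
  have m8 : 0 ≤ (m : ℤ) ^ 8 := by positivity
  have m12 : 0 ≤ (m : ℤ) ^ 12 := by positivity
  have eS2 : S ^ 2 = (Kn : ℤ) ^ 2 * (m : ℤ) ^ 4 := by rw [hSdef]; ring
  have S2C : 20000 * S ^ 2 ≤ 4000000 * (Kn : ℤ) ^ 6 * (m : ℤ) ^ 4 := by
    rw [eS2]
    have : 20000 * (Kn : ℤ) ^ 2 ≤ 4000000 * (Kn : ℤ) ^ 6 := by
      have h0 : 0 ≤ (Kn : ℤ) ^ 6 := by positivity
      linarith
    have := mul_le_mul_of_nonneg_right this m4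
    linarith
  have hS20 : 0 ≤ S ^ 2 := sq_nonneg S
  refine ⟨hcong, ?_, ⟨by linarith, by linarith, by linarith, by linarith, by linarith⟩, ?_, ?_,
    ?_, ?_⟩
  · intro i
    refine ⟨(hYY i).1, le_trans (hYY i).2 ?_⟩
    apply mul_le_mul_of_nonneg_right _ m2
    have h0 : 0 ≤ (Kn : ℤ) ^ 6 := by positivity
    linarith
  · have hneg := roots Q _ (U (ww m T) 1) _ _ _ _ hQ0 u0 u2 v0a v0b v1a v2a v2b
    have e480 : 480 * ca (ww m T) ≤ -(1000000 * Q ^ 2) := by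
      rw [ea]; unfold qa; exact hneg
    have hQ2 : (m : ℤ) ^ 4 ≤ Q ^ 2 := by
      have := pow_le_pow_left₀ m2 hmQ 2
      calc (m : ℤ) ^ 4 = ((m : ℤ) ^ 2) ^ 2 := by ring
        _ ≤ Q ^ 2 := this
    linarith
  · intro i j s hij hs
    have h1 := xnb (ww m T) (64 * S ^ 2) S ba bb bc bd be hYb i j s hs
    have h2 := hD _ hcong i j hij s hs
    have h3 := (xi_tab i j).2.2.2.2 hij.1
    have h4 : |xP (ww m T) i j s| ≤ |xn (ww m T) i j s| := by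
      rw [← h2, abs_mul, abs_of_nonneg (by linarith : 0 ≤ (xi i - xi j) ^ 2)]
      have := mul_le_mul_of_nonneg_right h3 (abs_nonneg (xP (ww m T) i j s))
      linarith
    linarith
  · have e1 : 8 * (64 * S ^ 2) ^ 2 = 32768 * (Kn : ℤ) ^ 4 * (m : ℤ) ^ 8 := by rw [eS2]; ring
    have : 32768 * (Kn : ℤ) ^ 4 ≤ 4000000 * (Kn : ℤ) ^ 6 := by
      have h0 : 0 ≤ (Kn : ℤ) ^ 6 := by positivity
      linarith
    have := mul_le_mul_of_nonneg_right this m8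
    linarith
  · have e1 : 13 * (64 * S ^ 2) ^ 3 = 3407872 * (Kn : ℤ) ^ 6 * (m : ℤ) ^ 12 := by rw [eS2]; ring
    have : 3407872 * (Kn : ℤ) ^ 6 ≤ 4000000 * (Kn : ℤ) ^ 6 := by
      have h0 : 0 ≤ (Kn : ℤ) ^ 6 := by positivity
      linarith
    have := mul_le_mul_of_nonneg_right this m12
    linarith

end Pool.Helper67.R6
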